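import Mathlib

namespace Pool.Agent.Results.MP_77df55_co.CubicCounterexample

open SimpleGraph

/-- `G` is a bipartite graph on `A ∪ B`, where `A = Fin n` is the left copy and `B = Fin n` the
right copy: every edge joins `A` to `B`. -/
def IsBip {n : ℕ} (G : SimpleGraph (Fin n ⊕ Fin n)) : Prop :=
  G ≤ completeBipartiteGraph (Fin n) (Fin n)

/-- `G` is `k`-regular: every vertex has exactly `k` neighbours. -/
def IsReg {n : ℕ} (k : ℕ) (G : SimpleGraph (Fin n ⊕ Fin n)) : Prop :=
  ∀ v, (G.neighborSet v).ncard = k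

/-- `M` is (the edge set of) a perfect matching of `G`: a spanning `1`-regular subgraph. -/
def IsPM {n : ℕ} (G M : SimpleGraph (Fin n ⊕ Fin n)) : Prop :=
  M ≤ G ∧ IsReg 1 M

/-- `M` is acceptable for `H`: there are no distinct `a, a'` in `A` and distinct `b, b'` in `B`
with `ab, a'b' ∈ M` and `ab', a'b ∈ E(H)`. -/
def Acceptable {n : ℕ} (M H : SimpleGraph (Fin n ⊕ Fin n)) : Prop :=
  ¬ ∃ a a' b b' : Fin n, a ≠ a' ∧ b ≠ b' ∧
    M.Adj (Sum.inl a) (Sum.inr b) ∧ M.Adj (Sum.inl a') (Sum.inr b') ∧
    H.Adj (Sum.inl a) (Sum.inr b') ∧ H.Adj (Sum.inl a') (Sum.inr b)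

/-- Adjacency lists of a cubic graph on 16 vertices without perfect matching. -/
def nb : Fin 16 → Finset (Fin 16) :=
  ![{1, 6, 11}, {0, 2, 3}, {1, 4, 5}, {1, 4, 5}, {2, 3, 5}, {2, 3, 4},
    {0, 7, 8}, {6, 9, 10}, {6, 9, 10}, {7, 8, 10}, {7, 8, 9},
    {0, 12, 13}, {11, 14, 15}, {11, 14, 15}, {12, 13, 15}, {12, 13, 14}]

/-- The `3`-regular loopless digraph. -/
def R (k : ℕ) : Fin 16 ⊕ ZMod k → Fin 16 ⊕ ZMod k → Prop
  | Sum.inl i, Sum.inl j => j ∈ nb i
  | Sum.inr x, Sum.inr y => y = x + 1 ∨ y = x + 2 ∨ y = x + 3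
  | _, _ => False

lemma nb_symm : ∀ i j, j ∈ nb i ↔ i ∈ nb j := by decide

lemma nb_card : ∀ i, (nb i).card = 3 := by decide

lemma nb_irrefl : ∀ i, i ∉ nb i := by decide

lemma zmod_ne {k : ℕ} (hk : 4 ≤ k) : (1 : ZMod k) ≠ 0 ∧ (2 : ZMod k) ≠ 0 ∧ (3 : ZMod k) ≠ 0 := by
  have h : ∀ m : ℕ, 0 < m → m < 4 → ((m : ℕ) : ZMod k) ≠ 0 := by
    intro m hm hm4 h0
    rw [ZMod.natCast_eq_zero_iff] at h0
    have := Nat.le_of_dvd hm h0
    omega
  refine ⟨by simpa using h 1 (by norm_num) (by norm_num),
    by simpa using h 2 (by norm_num) (by norm_num), by simpa using h 3 (by norm_num) (by norm_num)⟩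

lemma ncard_out {k : ℕ} (hk : 4 ≤ k) (v : Fin 16 ⊕ ZMod k) : {w | R k v w}.ncard = 3 := by
  obtain ⟨h1, h2, h3⟩ := zmod_ne hk
  rcases v with i | x
  · have : {w | R k (Sum.inl i) w} = Sum.inl '' (nb i : Set (Fin 16)) := by
      ext w
      rcases w with j | y
      · simp [R]
      · simp [R]
    rw [this, Set.ncard_image_of_injective _ Sum.inl_injective, Set.ncard_coe_finset, nb_card]
  · have : {w | R k (Sum.inr x) w} = Sum.inr '' ({x + 1, x + 2, x + 3} : Set (ZMod k)) := by
      ext w
      rcases w with j | y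
      · simp [R]
      · simp [R]
    rw [this, Set.ncard_image_of_injective _ Sum.inr_injective]
    rw [Set.ncard_eq_three]
    refine ⟨x + 1, x + 2, x + 3, ?_, ?_, ?_, rfl⟩
    · intro h
      apply h1
      linear_combination -h
    · intro h
      apply h2
      linear_combination -h
    · intro h
      apply h1
      linear_combination -h

lemma ncard_in {k : ℕ} (hk : 4 ≤ k) (v : Fin 16 ⊕ ZMod k) : {w | R k w v}.ncard = 3 := by
  obtain ⟨h1, h2, h3⟩ := zmod_ne hk
  rcases v with i | x
  · have : {w | R k w (Sum.inl i)} = Sum.inl '' (nb i : Set (Fin 16)) := by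
      ext w
      rcases w with j | y
      · simp [R, nb_symm i j]
      · simp [R]
    rw [this, Set.ncard_image_of_injective _ Sum.inl_injective, Set.ncard_coe_finset, nb_card]
  · have : {w | R k w (Sum.inr x)} = Sum.inr '' ({x - 1, x - 2, x - 3} : Set (ZMod k)) := by
      ext w
      rcases w with j | y
      · simp [R]
      · simp only [R, Set.mem_ofPred_eq, Set.mem_image, Set.mem_insert_iff, Set.mem_singleton_iff,
          Sum.inr.injEq, exists_eq_right]
        constructor
        · rintro (h | h | h)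
          · left; rw [h]; ring
          · right; left; rw [h]; ring
          · right; right; rw [h]; ring
        · rintro (h | h | h)
          · left; rw [h]; ring
          · right; left; rw [h]; ring
          · right; right; rw [h]; ring
    rw [this, Set.ncard_image_of_injective _ Sum.inr_injective]
    rw [Set.ncard_eq_three]
    refine ⟨x - 1, x - 2, x - 3, ?_, ?_, ?_, rfl⟩
    · intro h
      apply h1
      linear_combination h
    · intro h
      apply h2
      linear_combination h
    · intro h
      apply h1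
      linear_combination h

lemma R_irrefl {k : ℕ} (hk : 4 ≤ k) (v : Fin 16 ⊕ ZMod k) : ¬ R k v v := by
  obtain ⟨h1, h2, h3⟩ := zmod_ne hk
  rcases v with i | x
  · exact nb_irrefl i
  · rintro (h | h | h)
    · apply h1; linear_combination -h
    · apply h2; linear_combination -h
    · apply h3; linear_combination -h

/-- The bipartite graph on `Fin n ⊕ Fin n` given by a relation. -/
def bip {n : ℕ} (r : Fin n → Fin n → Prop) : SimpleGraph (Fin n ⊕ Fin n) where
  Adj
    | Sum.inl a, Sum.inr b => r a b
    | Sum.inr b, Sum.inl a => r a b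
    | _, _ => False
  symm := ⟨by
    rintro (a | a) (b | b) h
    · exact h
    · exact h
    · exact h
    · exact h⟩
  loopless := ⟨by
    rintro (a | a) h
    · exact h
    · exact h⟩

lemma bip_isBip {n : ℕ} (r : Fin n → Fin n → Prop) : IsBip (bip r) := by
  rintro (a | a) (b | b) h
  · exact absurd h (by simp [bip])
  · simp
  · simp
  · exact absurd h (by simp [bip])

lemma bip_reg {n k : ℕ} (r : Fin n → Fin n → Prop) (h1 : ∀ a, {b | r a b}.ncard = k)
    (h2 : ∀ b, {a | r a b}.ncard = k) : IsReg k (bip r) := by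
  rintro (a | a)
  · have : (bip r).neighborSet (Sum.inl a) = Sum.inr '' {b | r a b} := by
      ext w
      rcases w with j | y
      · simp [bip]
      · simp [bip]
    rw [this, Set.ncard_image_of_injective _ Sum.inr_injective, h1]
  · have : (bip r).neighborSet (Sum.inr a) = Sum.inl '' {b | r b a} := by
      ext w
      rcases w with j | y
      · simp [bip]
      · simp [bip]
    rw [this, Set.ncard_image_of_injective _ Sum.inl_injective, h2]

/-- The key combinatorial fact: an injective self-map of `Fin 16` along edges of the cubic graph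
has a `2`-cycle. -/
lemma key (f : Fin 16 → Fin 16) (hf : Function.Injective f) (hn : ∀ i, f i ∈ nb i) :
    ∃ i, f (f i) = i := by
  have hs : Function.Surjective f := Finite.surjective_of_injective hf
  obtain ⟨a, ha⟩ := hs 0
  -- general block argument
  have block : ∀ (x : Fin 16) (B : Finset (Fin 16)), f x = 0 → B.card = 5 → x ∈ B → (0 : Fin 16) ∉ B →
      (∀ y ∈ B, ∀ z, y ∈ nb z → z ∈ B ∨ (z = 0 ∧ y = x)) → f 0 = x := by
    intro x B hx hB hxB h0B hcl
    by_contra hne
    -- every element of B has its preimage in B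
    have hpre : ∀ y ∈ B, ∃ z ∈ B.erase x, f z = y := by
      intro y hy
      obtain ⟨z, hz⟩ := hs y
      have hyz : y ∈ nb z := by rw [← hz]; exact hn z
      rcases hcl y hy z hyz with h | ⟨h, h'⟩
      · refine ⟨z, ?_, hz⟩
        rw [Finset.mem_erase]
        refine ⟨?_, h⟩
        rintro rfl
        rw [hx] at hz
        exact h0B (hz ▸ hy)
      · exfalso
        apply hne
        rw [← h, hz, h']
    have hsub : B ⊆ (B.erase x).image f := by
      intro y hy
      obtain ⟨z, hz, hzy⟩ := hpre y hy
      exact Finset.mem_image.2 ⟨z, hz, hzy⟩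
    have h1 := Finset.card_le_card hsub
    have h2 := Finset.card_image_le (s := B.erase x) (f := f)
    rw [Finset.card_erase_of_mem hxB] at h2
    omega
  have ha' : a = 1 ∨ a = 6 ∨ a = 11 := by
    have h0 : (0 : Fin 16) ∈ nb a := by rw [← ha]; exact hn a
    rw [nb_symm] at h0
    have h3 : ∀ a : Fin 16, a ∈ nb 0 → a = 1 ∨ a = 6 ∨ a = 11 := by decide
    exact h3 a h0
  refine ⟨a, ?_⟩
  rw [ha]
  rcases ha' with rfl | rfl | rfl
  · exact block 1 {1, 2, 3, 4, 5} ha (by decide) (by decide) (by decide) (by decide)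
  · exact block 6 {6, 7, 8, 9, 10} ha (by decide) (by decide) (by decide) (by decide)
  · exact block 11 {11, 12, 13, 14, 15} ha (by decide) (by decide) (by decide) (by decide)

/-- For every `n ≥ 20` there are a `3`-regular bipartite graph `G` and an edge-disjoint `1`-regular
bipartite graph `H` on `A ∪ B`, `|A| = |B| = n`, such that no perfect matching of `G` is acceptable
for `H`. -/
theorem result : ∀ n : ℕ, 20 ≤ n → ∃ G H : SimpleGraph (Fin n ⊕ Fin n),
    IsBip G ∧ IsBip H ∧ IsReg 3 G ∧ IsReg 1 H ∧ Disjoint G.edgeSet H.edgeSet ∧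
    ∀ M : SimpleGraph (Fin n ⊕ Fin n), IsPM G M → ¬ Acceptable M H := by
  intro n hn
  obtain ⟨k, rfl⟩ : ∃ k, n = 16 + k := ⟨n - 16, by omega⟩
  have hk : 4 ≤ k := by omega
  have : NeZero k := ⟨by omega⟩
  have hcard : Fintype.card (Fin (16 + k)) = Fintype.card (Fin 16 ⊕ ZMod k) := by
    simp [ZMod.card]
  let e : Fin (16 + k) ≃ Fin 16 ⊕ ZMod k := Fintype.equivOfCardEq hcard
  refine ⟨bip (fun a b => R k (e a) (e b)), bip (fun a b => a = b), bip_isBip _, bip_isBip _,
    bip_reg _ ?_ ?_, bip_reg _ ?_ ?_, ?_, ?_⟩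
  · intro a
    have : {b | R k (e a) (e b)} = e.symm '' {w | R k (e a) w} := by
      ext b
      simp only [Set.mem_ofPred_eq, Set.mem_image]
      constructor
      · intro h; exact ⟨e b, h, by simp⟩
      · rintro ⟨w, hw, rfl⟩; simpa using hw
    rw [this, Set.ncard_image_of_injective _ e.symm.injective, ncard_out hk]
  · intro a
    have : {b | R k (e b) (e a)} = e.symm '' {w | R k w (e a)} := by
      ext b
      simp only [Set.mem_ofPred_eq, Set.mem_image]
      constructor
      · intro h; exact ⟨e b, h, by simp⟩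
      · rintro ⟨w, hw, rfl⟩; simpa using hw
    rw [this, Set.ncard_image_of_injective _ e.symm.injective, ncard_in hk]
  · intro a
    have : {b | a = b} = {a} := by ext b; simp [eq_comm]
    rw [this, Set.ncard_singleton]
  · intro a
    have : {b | b = a} = {a} := by ext b; simp
    rw [this, Set.ncard_singleton]
  · rw [SimpleGraph.disjoint_edgeSet]
    rw [disjoint_iff_inf_le]
    rintro (a | a) (b | b) ⟨h1, h2⟩
    · exact h1
    · have h1' : R k (e a) (e b) := h1
      have h2' : a = b := h2
      subst h2'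
      exact (R_irrefl hk _ h1').elim
    · have h1' : R k (e b) (e a) := h1
      have h2' : b = a := h2
      subst h2'
      exact (R_irrefl hk _ h1').elim
    · exact h1
  · rintro M ⟨hMG, hM⟩ hacc
    -- the permutation
    have hex : ∀ a : Fin (16 + k), ∃ b, M.Adj (Sum.inl a) (Sum.inr b) := by
      intro a
      have h := hM (Sum.inl a)
      rw [Set.ncard_eq_one] at h
      obtain ⟨w, hw⟩ := h
      have hwm : M.Adj (Sum.inl a) w := by
        have : w ∈ M.neighborSet (Sum.inl a) := by rw [hw]; rfl
        exact this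
      rcases w with c | c
      · exact absurd (hMG hwm) (by simp [bip])
      · exact ⟨c, hwm⟩
    choose s hs using hex
    have sinj : Function.Injective s := by
      intro a a' haa
      have h := hM (Sum.inr (s a))
      rw [Set.ncard_eq_one] at h
      obtain ⟨w, hw⟩ := h
      have h1 : (Sum.inl a : Fin (16 + k) ⊕ Fin (16 + k)) ∈ M.neighborSet (Sum.inr (s a)) :=
        (hs a).symm
      have h2 : (Sum.inl a' : Fin (16 + k) ⊕ Fin (16 + k)) ∈ M.neighborSet (Sum.inr (s a)) := by
        rw [haa]; exact (hs a').symm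
      rw [hw] at h1 h2
      have := h1.trans h2.symm
      exact Sum.inl_injective this
    have hR : ∀ a, R k (e a) (e (s a)) := fun a => hMG (hs a)
    -- the restriction to `Fin 16`
    have hex2 : ∀ i : Fin 16, ∃ j : Fin 16, e (s (e.symm (Sum.inl i))) = Sum.inl j ∧ j ∈ nb i := by
      intro i
      have h := hR (e.symm (Sum.inl i))
      rw [Equiv.apply_symm_apply] at h
      rcases hv : e (s (e.symm (Sum.inl i))) with j | y
      · rw [hv] at h
        exact ⟨j, rfl, h⟩
      · rw [hv] at h
        exact h.elim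
    choose f hf1 hf2 using hex2
    have finj : Function.Injective f := by
      intro i j hij
      have h1 := hf1 i
      have h2 := hf1 j
      rw [hij, ← h2] at h1
      have h3 := sinj (e.injective h1)
      have h4 := e.symm.injective h3
      exact Sum.inl_injective h4
    obtain ⟨i, hi⟩ := key f finj hf2
    -- build the forbidden 4-cycle
    have hsa : s (e.symm (Sum.inl i)) = e.symm (Sum.inl (f i)) := by
      rw [← hf1 i, Equiv.symm_apply_apply]
    have hsb : s (e.symm (Sum.inl (f i))) = e.symm (Sum.inl i) := by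
      have := hf1 (f i)
      rw [hi] at this
      rw [← this, Equiv.symm_apply_apply]
    apply hacc
    have hne : e.symm (Sum.inl i) ≠ e.symm (Sum.inl (f i)) := by
      intro h
      have h4 := Sum.inl_injective (e.symm.injective h)
      have h5 := hf2 i
      rw [← h4] at h5
      exact nb_irrefl i h5
    refine ⟨e.symm (Sum.inl i), e.symm (Sum.inl (f i)), e.symm (Sum.inl (f i)), e.symm (Sum.inl i),
      hne, hne.symm, ?_, ?_, ?_, ?_⟩
    · have := hs (e.symm (Sum.inl i))
      rwa [hsa] at this
    · have := hs (e.symm (Sum.inl (f i)))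
      rwa [hsb] at this
    · rfl
    · rfl

end Pool.Agent.Results.MP_77df55_co.CubicCounterexample
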